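import Mathlib
import Pool.Agent.MP_c73427_an.Defs

section

/-!
The canonical quotient map from `ℓ¹(F)` onto a Banach space `F` has a continuous right inverse.
-/

namespace Pool.Agent.MP_c73427_an

open Filter Topology

universe w

/-- The real space `ℓ¹(Γ)`. -/
abbrev L1 (Γ : Type w) : Type w := lp (fun _ : Γ => ℝ) 1

section synth

variable {Γ : Type*} {F : Type*} [NormedAddCommGroup F] [NormedSpace ℝ F] [CompleteSpace F]

/-- The operator `a ↦ ∑ a γ • v γ`. -/
noncomputable def synth (v : Γ → F) (hv : ∀ γ, ‖v γ‖ ≤ 1) : L1 Γ →L[ℝ] F :=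
  (lp.tsumCLM ℝ Γ F).comp
    (lp.mapCLM 1 (fun γ : Γ => ContinuousLinearMap.toSpanSingleton ℝ (v γ)) zero_le_one
      (fun γ => by simpa using hv γ))

lemma synth_apply (v : Γ → F) (hv : ∀ γ, ‖v γ‖ ≤ 1) (a : L1 Γ) :
    synth v hv a = ∑' γ, a γ • v γ := rfl

lemma synth_single [DecidableEq Γ] (v : Γ → F) (hv : ∀ γ, ‖v γ‖ ≤ 1) (γ : Γ) (c : ℝ) :
    synth v hv (lp.single 1 γ c) = c • v γ := by
  rw [synth_apply, tsum_eq_single γ]
  · simp
  · intro b hb
    simp [hb]

lemma norm_synth_le (v : Γ → F) (hv : ∀ γ, ‖v γ‖ ≤ 1) (a : L1 Γ) : ‖synth v hv a‖ ≤ ‖a‖ := by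
  have h1 : ‖synth v hv‖ ≤ 1 := by
    refine (ContinuousLinearMap.opNorm_comp_le _ _).trans ?_
    have h2 := lp.norm_tsumCLM_le (α := Γ) (𝕜 := ℝ) (E := F)
    have h3 := lp.norm_mapCLM_le 1
      (fun γ : Γ => ContinuousLinearMap.toSpanSingleton ℝ (v γ)) zero_le_one
      (fun γ => by simpa using hv γ)
    calc _ ≤ 1 * 1 := mul_le_mul h2 h3 (norm_nonneg _) zero_le_one
      _ = 1 := one_mul _
  simpa using (synth v hv).le_of_opNorm_le h1 a

end synth

section lifting

variable {A F : Type*} [NormedAddCommGroup A] [NormedSpace ℝ A] [CompleteSpace A]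
  [NormedAddCommGroup F] [NormedSpace ℝ F]

/-- Bartle and Graves, in the form needed here. -/
lemma exists_continuous_rightInverse (Q : A →L[ℝ] F)
    (hQ : ∀ y : F, ∃ a : A, Q a = y ∧ ‖a‖ ≤ ‖y‖) :
    ∃ h : F → A, Continuous h ∧ ∀ y, Q (h y) = y := by
  obtain ⟨s, hs⟩ : ∃ s : C(F, A), ∀ y, s y ∈ {a : A | ‖Q a - y‖ < 1 / 2 ∧ ‖a‖ < ‖y‖ + 1 / 2} := by
    apply exists_continuous_forall_mem_convex_of_local_const
    · intro y
      have h1 : Convex ℝ {a : A | ‖Q a - y‖ < 1 / 2} := by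
        have := (convex_ball y (1 / 2 : ℝ)).linear_preimage (Q : A →ₗ[ℝ] F)
        simpa [Set.preimage, dist_eq_norm] using this
      have h2 : Convex ℝ {a : A | ‖a‖ < ‖y‖ + 1 / 2} := by
        have := convex_ball (0 : A) (‖y‖ + 1 / 2)
        simpa [Metric.ball, dist_eq_norm] using this
      exact h1.inter h2
    · intro x
      obtain ⟨a, ha, hn⟩ := hQ x
      refine ⟨a, ?_⟩
      filter_upwards [Metric.ball_mem_nhds x (by norm_num : (0 : ℝ) < 1 / 2)] with y hy
      rw [Metric.mem_ball, dist_comm, dist_eq_norm] at hy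
      refine ⟨by rwa [ha], ?_⟩
      have := norm_sub_norm_le x y
      linarith
  set r : F → F := fun y => (2 : ℝ) • (y - Q (s y)) with hr
  have hrc : Continuous r := by
    have := s.continuous
    fun_prop
  have hr1 : ∀ y, ‖r y‖ ≤ 1 := by
    intro y
    have := (hs y).1
    rw [norm_sub_rev] at this
    simp only [hr, norm_smul, Real.norm_ofNat]
    linarith
  have hit1 : ∀ n y, ‖r^[n + 1] y‖ ≤ 1 := by
    intro n y
    rw [Function.iterate_succ_apply']
    exact hr1 _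
  set t : ℕ → F → A := fun n y => (1 / 2 : ℝ) ^ (n + 1) • s (r^[n + 1] y) with ht
  have htb : ∀ n y, ‖t n y‖ ≤ (1 / 2 : ℝ) ^ n := by
    intro n y
    have h1 := (hs (r^[n + 1] y)).2
    have h2 := hit1 n y
    have h3 : (0 : ℝ) < (1 / 2 : ℝ) ^ n := by positivity
    simp only [ht, norm_smul, norm_pow, Real.norm_eq_abs]
    rw [abs_of_pos (by norm_num : (0 : ℝ) < 1 / 2), pow_succ]
    nlinarith
  have htc : ∀ n, Continuous (t n) := by
    intro n
    have h1 := hrc.iterate (n + 1)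
    have h2 := s.continuous
    simp only [ht]
    fun_prop
  have hsum : ∀ y, Summable fun n => t n y := fun y =>
    Summable.of_norm_bounded summable_geometric_two (fun n => htb n y)
  refine ⟨fun y => s y + ∑' n, t n y, ?_, ?_⟩
  · exact s.continuous.add (continuous_tsum htc summable_geometric_two htb)
  · intro y
    have hpart : ∀ N, Q (s y + ∑ n ∈ Finset.range N, t n y)
        = y - (1 / 2 : ℝ) ^ (N + 1) • r^[N + 1] y := by
      intro N
      induction N with
      | zero => simp [hr, smul_smul]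
      | succ N ih =>
        rw [Finset.sum_range_succ, ← add_assoc, map_add, ih,
          Function.iterate_succ_apply' r (N + 1) y]
        simp only [ht, map_smul, hr, smul_smul, smul_sub]
        have : (1 / 2 : ℝ) ^ (N + 1 + 1) * 2 = (1 / 2 : ℝ) ^ (N + 1) := by
          rw [pow_succ (1 / 2 : ℝ) (N + 1)]; ring
        rw [this]
        abel
    have h1 : Tendsto (fun N => Q (s y + ∑ n ∈ Finset.range N, t n y)) atTop
        (𝓝 (Q (s y + ∑' n, t n y))) :=
      (Q.continuous.tendsto _).comp (tendsto_const_nhds.add (hsum y).hasSum.tendsto_sum_nat)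
    have h2 : Tendsto (fun N : ℕ => (1 / 2 : ℝ) ^ (N + 1) • r^[N + 1] y) atTop (𝓝 0) := by
      refine squeeze_zero_norm (a := fun N => (1 / 2 : ℝ) ^ N) ?_
        (tendsto_pow_atTop_nhds_zero_of_lt_one (by norm_num) (by norm_num))
      intro N
      have h2 := hit1 N y
      have h3 : (0 : ℝ) < (1 / 2 : ℝ) ^ N := by positivity
      have h4 := norm_nonneg (r^[N + 1] y)
      simp only [norm_smul, norm_pow, Real.norm_eq_abs]
      rw [abs_of_pos (by norm_num : (0 : ℝ) < 1 / 2), pow_succ]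
      nlinarith
    have h3 : Tendsto (fun N => Q (s y + ∑ n ∈ Finset.range N, t n y)) atTop (𝓝 y) := by
      simp only [hpart]
      simpa using tendsto_const_nhds.sub h2
    exact tendsto_nhds_unique h1 h3

end lifting

/-- Every Banach space `F` is the image of `ℓ¹(F)` under a bounded operator which has a
continuous right inverse. -/
theorem exists_lifting (F : Type w) [NormedAddCommGroup F] [NormedSpace ℝ F] [CompleteSpace F] :
    ∃ (Q : L1 F →L[ℝ] F) (h : F → L1 F), Continuous h ∧ ∀ y, Q (h y) = y := by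
  classical
  have hv : ∀ γ : F, ‖‖γ‖⁻¹ • γ‖ ≤ 1 := by
    intro γ
    rw [norm_smul, norm_inv, norm_norm]
    exact inv_mul_le_one_of_le₀ le_rfl (norm_nonneg _)
  refine ⟨synth (fun γ : F => ‖γ‖⁻¹ • γ) hv, ?_⟩
  apply exists_continuous_rightInverse
  intro y
  refine ⟨lp.single 1 y ‖y‖, ?_, ?_⟩
  · rw [synth_single, smul_smul]
    by_cases hy : y = 0
    · simp [hy]
    · rw [mul_inv_cancel₀ (norm_ne_zero_iff.mpr hy), one_smul]
  · rw [lp.norm_single (by norm_num)]
    simp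

end Pool.Agent.MP_c73427_an

end

section

/-!
An operator into `ℓ¹(Γ)` dominated by an operator into a finite product of reflexive spaces
maps a neighbourhood of zero to a totally bounded set.
-/

namespace Pool.Agent.MP_c73427_an

open Filter Topology

/-- Every bounded sequence has a point lying in the closure of each convex set that contains
a tail of the sequence. -/
def HasWeakClusterPoints (R : Type*) [NormedAddCommGroup R] [NormedSpace ℝ R] : Prop :=
  ∀ (y : ℕ → R) (M : ℝ), (∀ n, ‖y n‖ ≤ M) →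
    ∃ z : R, ∀ D : Set R, Convex ℝ D → (∀ᶠ n in atTop, y n ∈ D) → z ∈ closure D

lemma exists_weak_limit {R : Type*} [NormedAddCommGroup R] [NormedSpace ℝ R]
    (hR : Function.Surjective (NormedSpace.inclusionInDoubleDual ℝ R))
    (U : Ultrafilter ℕ) (y : ℕ → R) (M : ℝ) (hM : ∀ n, ‖y n‖ ≤ M) :
    ∃ z : R, ∀ φ : StrongDual ℝ R, Tendsto (fun n => φ (y n)) U (𝓝 (φ z)) := by
  set Y : ℕ → WeakDual ℝ (StrongDual ℝ R) :=
    fun n => StrongDual.toWeakDual (NormedSpace.inclusionInDoubleDual ℝ R (y n)) with hY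
  have hK := WeakDual.isCompact_closedBall (0 : StrongDual ℝ (StrongDual ℝ R)) M
  obtain ⟨Φ, -, hΦ⟩ := hK.ultrafilter_le_nhds (U.map Y) (by
    rw [Ultrafilter.coe_map, le_principal_iff, mem_map]
    refine univ_mem' fun n => ?_
    have := (NormedSpace.double_dual_bound ℝ R (y n)).trans (hM n)
    simpa [hY] using this)
  obtain ⟨z, hz⟩ := hR (WeakDual.toStrongDual Φ)
  refine ⟨z, fun φ => ?_⟩
  have h1 : Tendsto Y U (𝓝 Φ) := hΦ
  have h2 := ((WeakDual.eval_continuous φ).tendsto Φ).comp h1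
  have h3 : Φ φ = φ z := by
    have : (WeakDual.toStrongDual Φ) φ = φ z := by rw [← hz]; rfl
    exact this
  rw [h3] at h2
  exact h2

lemma hasWeakClusterPoints_pi {ι : Type*} [Fintype ι] (R : ι → Type*)
    [∀ i, NormedAddCommGroup (R i)] [∀ i, NormedSpace ℝ (R i)]
    (hR : ∀ i, Function.Surjective (NormedSpace.inclusionInDoubleDual ℝ (R i))) :
    HasWeakClusterPoints (∀ i, R i) := by
  classical
  intro y M hM
  set U : Ultrafilter ℕ := Ultrafilter.of atTop
  have hU : (U : Filter ℕ) ≤ atTop := Ultrafilter.of_le atTop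
  choose z hz using fun i => exists_weak_limit (hR i) U (fun n => y n i) M
    (fun n => (norm_le_pi_norm (y n) i).trans (hM n))
  have hlim : ∀ φ : StrongDual ℝ (∀ i, R i), Tendsto (fun n => φ (y n)) U (𝓝 (φ z)) := by
    intro φ
    have hφ : ∀ x : ∀ i, R i, φ x = ∑ i, (φ.comp (ContinuousLinearMap.single ℝ R i)) (x i) := by
      intro x
      conv_lhs => rw [← Finset.univ_sum_single x]
      simp [map_sum]
    simp only [hφ]
    exact tendsto_finsetSum _ fun i _ => hz i _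
  refine ⟨z, fun D hD hyD => ?_⟩
  by_contra hzD
  obtain ⟨f, u, hfz, hfD⟩ := geometric_hahn_banach_point_closed hD.closure isClosed_closure hzD
  have h1 : ∀ᶠ n in (U : Filter ℕ), u ≤ f (y n) :=
    (hyD.filter_mono hU).mono fun n hn => (hfD _ (subset_closure hn)).le
  have h2 := ge_of_tendsto (hlim f) h1
  linarith

section tail

variable {Γ : Type*} [DecidableEq Γ]

/-- The mass of `a` outside the finite set `G`. -/
noncomputable def tail (G : Finset Γ) (a : L1 Γ) : ℝ := ‖a - ∑ γ ∈ G, lp.single 1 γ (a γ)‖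

lemma tail_eq (G : Finset Γ) (a : L1 Γ) : tail G a = ‖a‖ - ∑ γ ∈ G, |a γ| := by
  have := lp.norm_compl_sum_single (p := 1) (by simp) a G
  simpa [tail] using this

lemma tail_nonneg (G : Finset Γ) (a : L1 Γ) : 0 ≤ tail G a := norm_nonneg _

lemma tail_anti {G G' : Finset Γ} (h : G ⊆ G') (a : L1 Γ) : tail G' a ≤ tail G a := by
  rw [tail_eq, tail_eq]
  have := Finset.sum_le_sum_of_subset_of_nonneg (f := fun γ => |a γ|) h
    (fun _ _ _ => abs_nonneg _)
  linarith

lemma exists_tail_lt (a : L1 Γ) {η : ℝ} (hη : 0 < η) : ∃ G : Finset Γ, tail G a < η := by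
  have h := lp.hasSum_single (p := 1) (by simp) a
  rw [HasSum, Metric.tendsto_nhds] at h
  obtain ⟨G, hG⟩ := (h η hη).exists
  refine ⟨G, ?_⟩
  rwa [dist_comm, dist_eq_norm] at hG

lemma abs_synth_sub_le (g : Γ → ℝ) (hg : ∀ γ, ‖g γ‖ ≤ 1) (B : Finset Γ) (a : L1 Γ) :
    |synth g hg a - ∑ γ ∈ B, a γ * g γ| ≤ tail B a := by
  have h := norm_synth_le g hg (a - ∑ γ ∈ B, lp.single 1 γ (a γ))
  rw [map_sub, map_sum] at h
  simpa only [synth_single, smul_eq_mul, Real.norm_eq_abs, tail] using h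

lemma totallyBounded_of_tail {K : Set (L1 Γ)} (hK : ∀ a ∈ K, ‖a‖ ≤ 1)
    (h : ∀ ε > 0, ∃ G : Finset Γ, ∀ a ∈ K, tail G a ≤ ε) : TotallyBounded K := by
  rw [Metric.totallyBounded_iff]
  intro ε hε
  obtain ⟨G, hG⟩ := h (ε / 3) (by positivity)
  set P : (G → ℝ) → L1 Γ := fun c => ∑ γ : G, lp.single 1 (γ : Γ) (c γ) with hP
  have hPc : Continuous P := by
    refine continuous_finsetSum _ fun γ _ => ?_
    exact (lp.isometry_single (E := fun _ : Γ => ℝ) (p := 1) (γ : Γ)).continuous.comp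
      (continuous_apply γ)
  have hcomp : IsCompact (P '' Metric.closedBall 0 1) := (isCompact_closedBall 0 1).image hPc
  obtain ⟨t, ht, hcov⟩ := Metric.totallyBounded_iff.mp hcomp.totallyBounded (ε / 3) (by positivity)
  refine ⟨t, ht, fun a ha => ?_⟩
  have hmem : P (fun γ => a γ) ∈ P '' Metric.closedBall 0 1 := by
    refine ⟨_, ?_, rfl⟩
    rw [mem_closedBall_zero_iff, pi_norm_le_iff_of_nonneg zero_le_one]
    intro γ
    exact (lp.norm_apply_le_norm (by simp) a (γ : Γ)).trans (hK a ha)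
  have h1 := hcov hmem
  simp only [Set.mem_iUnion, Metric.mem_ball] at h1 ⊢
  obtain ⟨b, hb, hdist⟩ := h1
  refine ⟨b, hb, ?_⟩
  have h2 : dist a (P fun γ => a γ) ≤ ε / 3 := by
    have := hG a ha
    rw [tail, ← Finset.sum_coe_sort G] at this
    rwa [dist_eq_norm]
  have := dist_triangle a (P fun γ => a γ) b
  linarith

end tail

section hump

variable {Γ : Type*} [DecidableEq Γ] {L R : Type*} [AddCommGroup L] [Module ℝ L]
  [NormedAddCommGroup R] [NormedSpace ℝ R]

lemma tail_step (hR : HasWeakClusterPoints R) (T : L →ₗ[ℝ] R) (H : L →ₗ[ℝ] L1 Γ) {r : ℝ}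
    (hr : 0 < r) (hb : ∀ u, ‖T u‖ < r → ‖H u‖ < 1) {t : ℝ} (ht : 0 < t) (G₀ : Finset Γ)
    (hG₀ : ∀ u, ‖T u‖ < r → tail G₀ (H u) ≤ t) :
    ∃ G : Finset Γ, ∀ u, ‖T u‖ < r → tail G (H u) ≤ 3 / 4 * t := by
  classical
  by_contra hcon
  push Not at hcon
  choose uu huu1 huu2 using hcon
  choose nxt hnxt using fun G : Finset Γ => exists_tail_lt (H (uu G)) (by positivity : 0 < t / 16)
  obtain ⟨G, hG0, hGs⟩ : ∃ G : ℕ → Finset Γ, G 0 = G₀ ∧ ∀ n, G (n + 1) = G n ∪ nxt (G n) :=
    ⟨fun n => Nat.rec G₀ (fun _ G' => G' ∪ nxt G') n, rfl, fun _ => rfl⟩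
  have hmono : Monotone G := monotone_nat_of_le_succ fun n => by
    rw [hGs]; exact Finset.subset_union_left
  set u : ℕ → L := fun n => uu (G n) with hu
  have hu1 : ∀ n, ‖T (u n)‖ < r := fun n => huu1 _
  have hu2 : ∀ n, 3 / 4 * t < tail (G n) (H (u n)) := fun n => huu2 _
  have hu3 : ∀ n, tail (G (n + 1)) (H (u n)) < t / 16 := fun n =>
    (tail_anti (by rw [hGs]; exact Finset.subset_union_right) _).trans_lt (hnxt (G n))
  have hu4 : ∀ n, tail (G 0) (H (u n)) ≤ t := fun n => hG0 ▸ hG₀ _ (hu1 n)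
  let sg : ℕ → Γ → ℝ := fun (n : ℕ) (γ : Γ) =>
    if (0 : ℝ) ≤ (H (u n) : L1 Γ) γ then (1 : ℝ) else -1
  let g : ℕ → Γ → ℝ := fun (k : ℕ) (γ : Γ) =>
    if γ ∈ G k then (0 : ℝ) else
      if h : ∃ m : ℕ, γ ∈ G (m + 1) then sg (Nat.find h) γ else 0
  have hg : ∀ k γ, ‖g k γ‖ ≤ 1 := by
    intro k γ
    simp only [g, sg]
    split_ifs <;> simp
  have hbig : ∀ k n, k ≤ n → 3 / 8 * t ≤ synth (g k) (hg k) (H (u n)) := by
    intro k n hkn
    set a := H (u n) with ha
    have h1 := abs_synth_sub_le (g k) (hg k) (G (n + 1)) a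
    have hs1 : G n ⊆ G (n + 1) := hmono (Nat.le_succ n)
    have hs0 : G 0 ⊆ G n := hmono (Nat.zero_le n)
    have e1 : ∑ γ ∈ G (n + 1), a γ * g k γ
        = ∑ γ ∈ G (n + 1) \ G n, a γ * g k γ + (∑ γ ∈ G n \ G 0, a γ * g k γ
          + ∑ γ ∈ G 0, a γ * g k γ) := by
      rw [Finset.sum_sdiff hs0, Finset.sum_sdiff hs1]
    have e2 : ∑ γ ∈ G 0, a γ * g k γ = 0 := by
      refine Finset.sum_eq_zero fun γ hγ => ?_
      have : γ ∈ G k := hmono (Nat.zero_le k) hγ
      simp [g, this]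
    have e3 : ∑ γ ∈ G (n + 1) \ G n, a γ * g k γ = ∑ γ ∈ G (n + 1) \ G n, |a γ| := by
      refine Finset.sum_congr rfl fun γ hγ => ?_
      rw [Finset.mem_sdiff] at hγ
      have hk : γ ∉ G k := fun h => hγ.2 (hmono hkn h)
      have hex : ∃ m, γ ∈ G (m + 1) := ⟨n, hγ.1⟩
      have hfind : Nat.find hex = n := by
        rw [Nat.find_eq_iff]
        exact ⟨hγ.1, fun m hm h => hγ.2 (hmono (Nat.succ_le_of_lt hm) h)⟩
      simp only [g, sg, if_neg hk, dif_pos hex, hfind, ← ha]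
      split_ifs with hs
      · rw [abs_of_nonneg hs, mul_one]
      · rw [abs_of_neg (lt_of_not_ge hs)]; ring
    have e4 : -∑ γ ∈ G n \ G 0, |a γ| ≤ ∑ γ ∈ G n \ G 0, a γ * g k γ := by
      rw [← Finset.sum_neg_distrib]
      refine Finset.sum_le_sum fun γ _ => ?_
      have h2 : |a γ * g k γ| ≤ |a γ| := by
        rw [abs_mul]
        exact mul_le_of_le_one_right (abs_nonneg _) (hg k γ)
      exact (abs_le.mp h2).1
    have e5 : ∑ γ ∈ G (n + 1) \ G n, |a γ| = tail (G n) a - tail (G (n + 1)) a := by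
      rw [tail_eq, tail_eq, ← Finset.sum_sdiff hs1]; ring
    have e6 : ∑ γ ∈ G n \ G 0, |a γ| = tail (G 0) a - tail (G n) a := by
      rw [tail_eq, tail_eq, ← Finset.sum_sdiff hs0]; ring
    have h2 := (abs_le.mp h1).1
    have h3 := hu2 n
    have h4 := hu3 n
    have h5 := hu4 n
    rw [← ha] at h3 h4 h5
    linarith
  have hsmall : ∀ (a : L1 Γ) (η : ℝ), 0 < η → ∃ k, |synth (g k) (hg k) a| < η := by
    intro a η hη
    obtain ⟨B, hB⟩ := exists_tail_lt a hη
    obtain ⟨k, hk⟩ : ∃ k, ∀ γ ∈ B, (∃ m, γ ∈ G (m + 1)) → γ ∈ G k := by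
      have : ∀ γ : Γ, ∃ k, (∃ m, γ ∈ G (m + 1)) → γ ∈ G k := by
        intro γ
        by_cases h : ∃ m, γ ∈ G (m + 1)
        · obtain ⟨m, hm⟩ := h
          exact ⟨m + 1, fun _ => hm⟩
        · exact ⟨0, fun h' => absurd h' h⟩
      choose κ hκ using this
      exact ⟨B.sup κ, fun γ hγ h => hmono (Finset.le_sup hγ) (hκ γ h)⟩
    refine ⟨k, ?_⟩
    have h1 := abs_synth_sub_le (g k) (hg k) B a
    have e : ∑ γ ∈ B, a γ * g k γ = 0 := by
      refine Finset.sum_eq_zero fun γ hγ => ?_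
      by_cases h : ∃ m, γ ∈ G (m + 1)
      · simp [g, hk γ hγ h]
      · simp only [g, dif_neg h]
        simp
    rw [e, sub_zero] at h1
    exact h1.trans_lt hB
  obtain ⟨z, hz⟩ := hR (fun n => T (u n)) r (fun n => (hu1 n).le)
  have happ : ∀ k, ∃ c : L, 3 / 8 * t ≤ synth (g k) (hg k) (H c) ∧ ‖T c - z‖ < t / 16 * r := by
    intro k
    have hconv : Convex ℝ (T '' {c : L | 3 / 8 * t ≤ synth (g k) (hg k) (H c)}) := by
      refine Convex.linear_image ?_ T
      exact (convex_Ici (3 / 8 * t)).linear_preimage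
        ((synth (g k) (hg k) : L1 Γ →ₗ[ℝ] ℝ).comp H)
    have hev : ∀ᶠ n in atTop, T (u n) ∈ T '' {c : L | 3 / 8 * t ≤ synth (g k) (hg k) (H c)} :=
      (eventually_ge_atTop k).mono fun n hn => ⟨u n, hbig k n hn, rfl⟩
    have hcl := hz _ hconv hev
    rw [Metric.mem_closure_iff] at hcl
    obtain ⟨_, ⟨c, hc, rfl⟩, hdist⟩ := hcl (t / 16 * r) (by positivity)
    exact ⟨c, hc, by rwa [dist_comm, dist_eq_norm] at hdist⟩
  choose c hc1 hc2 using happ
  obtain ⟨k, hk⟩ := hsmall (H (c 0)) (t / 8) (by positivity)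
  have h1 : ‖T (c k - c 0)‖ < t / 8 * r := by
    have : T (c k - c 0) = (T (c k) - z) - (T (c 0) - z) := by rw [map_sub]; abel
    rw [this]
    have h2 := norm_sub_le (T (c k) - z) (T (c 0) - z)
    have h3 := hc2 k
    have h4 := hc2 0
    linarith
  have h2 : ‖H (c k - c 0)‖ < t / 8 := by
    have h3 := hb ((8 / t) • (c k - c 0)) (by
      rw [map_smul, norm_smul, Real.norm_of_nonneg (by positivity), div_mul_eq_mul_div,
        div_lt_iff₀ ht]
      linarith)
    rw [map_smul, norm_smul, Real.norm_of_nonneg (by positivity), div_mul_eq_mul_div,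
      div_lt_iff₀ ht] at h3
    linarith
  have h3 := norm_synth_le (g k) (hg k) (H (c k - c 0))
  rw [map_sub H, map_sub, Real.norm_eq_abs, ← map_sub H] at h3
  have h4 := (abs_le.mp h3).2
  have h5 := (abs_lt.mp hk).2
  have h6 := hc1 k
  linarith

theorem totallyBounded_image (hR : HasWeakClusterPoints R) (T : L →ₗ[ℝ] R) (H : L →ₗ[ℝ] L1 Γ)
    {r : ℝ} (hr : 0 < r) (hb : ∀ u, ‖T u‖ < r → ‖H u‖ < 1) :
    TotallyBounded (H '' {u | ‖T u‖ < r}) := by
  have hP : ∀ n : ℕ, ∃ G : Finset Γ, ∀ u, ‖T u‖ < r → tail G (H u) ≤ (3 / 4 : ℝ) ^ n := by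
    intro n
    induction n with
    | zero => exact ⟨∅, fun u hu => by simpa [tail] using (hb u hu).le⟩
    | succ n ih =>
      obtain ⟨G, hG⟩ := ih
      obtain ⟨G', hG'⟩ := tail_step hR T H hr hb (by positivity) G hG
      exact ⟨G', fun u hu => by rw [pow_succ']; exact hG' u hu⟩
  apply totallyBounded_of_tail
  · rintro _ ⟨u, hu, rfl⟩
    exact (hb u hu).le
  · intro ε hε
    obtain ⟨n, hn⟩ := exists_pow_lt_of_lt_one hε (by norm_num : (3 / 4 : ℝ) < 1)
    obtain ⟨G, hG⟩ := hP n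
    refine ⟨G, ?_⟩
    rintro _ ⟨u, hu, rfl⟩
    exact (hG u hu).trans hn.le

end hump

end Pool.Agent.MP_c73427_an

end

section

/-!
A multi-reflexive free locally convex space is a Schwartz space.
-/

namespace Pool.Agent.MP_c73427_an

open Filter Topology

universe u v w w₁ w₂

/-- Every continuous linear map from a multi-reflexive space to `ℓ¹(Γ)` is compact. -/
theorem isCompactOperator_of_isMultiReflexive {L : Type v} [AddCommGroup L] [Module ℝ L]
    [TopologicalSpace L] [IsTopologicalAddGroup L] [ContinuousSMul ℝ L]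
    (hL : IsMultiReflexive.{v, w₁, w₂} L) {Γ : Type w}
    (H : L →L[ℝ] L1 Γ) : IsCompactOperator H := by
  classical
  obtain ⟨I, R, _, _, -, hR, j, hj⟩ := hL
  have h0 : H ⁻¹' Metric.ball 0 1 ∈ 𝓝 (0 : L) :=
    H.continuous.continuousAt.preimage_mem_nhds (by
      rw [map_zero]; exact Metric.ball_mem_nhds 0 one_pos)
  rw [hj.isInducing.nhds_eq_comap, map_zero, mem_comap] at h0
  obtain ⟨W, hW, hWH⟩ := h0
  rw [nhds_pi, Filter.mem_pi] at hW
  obtain ⟨s, hs, V, hV, hVW⟩ := hW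
  have := hs.fintype
  have hex : ∀ i, ∃ ρ > 0, Metric.ball (0 : R i) ρ ⊆ V i := fun i =>
    Metric.mem_nhds_iff.mp (hV i)
  choose ρ hρ hρV using hex
  obtain ⟨r, hr, hrρ⟩ : ∃ r > 0, ∀ i : s, r ≤ ρ i := by
    rcases isEmpty_or_nonempty s with h | h
    · exact ⟨1, one_pos, fun i => h.elim i⟩
    · obtain ⟨i, hi⟩ := Finite.exists_min (fun i : s => ρ i)
      exact ⟨ρ i, hρ i, hi⟩
  let T : L →ₗ[ℝ] (∀ i : s, R i) :=
    LinearMap.pi fun i : s => (LinearMap.proj (i : I)).comp j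
  have hTc : Continuous T :=
    continuous_pi fun i : s => (continuous_apply (i : I)).comp hj.continuous
  have hb : ∀ x, ‖T x‖ < r → ‖(H : L →ₗ[ℝ] L1 Γ) x‖ < 1 := by
    intro x hx
    have h1 : j x ∈ W := by
      apply hVW
      intro i hi
      apply hρV
      rw [mem_ball_zero_iff]
      exact ((norm_le_pi_norm (T x) ⟨i, hi⟩).trans_lt hx).trans_le (hrρ ⟨i, hi⟩)
    simpa using hWH h1
  have htb := totallyBounded_image (hasWeakClusterPoints_pi (fun i : s => R i) fun i => hR i)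
    T (H : L →ₗ[ℝ] L1 Γ) hr hb
  rw [isCompactOperator_iff_exists_mem_nhds_isCompact_closure_image]
  refine ⟨{x | ‖T x‖ < r}, ?_, htb.closure.isCompact_of_isClosed isClosed_closure⟩
  exact (isOpen_lt hTc.norm continuous_const).mem_nhds (by simpa using hr)

theorem isSchwartz_of_isMultiReflexive {X : Type u} [TopologicalSpace X]
    {L : Type v} [AddCommGroup L] [Module ℝ L] [TopologicalSpace L] [IsTopologicalAddGroup L]
    [ContinuousSMul ℝ L] (ι : X → L) (hι : IsFreeLCS.{u, v, w} ι)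
    (hL : IsMultiReflexive.{v, w₁, w₂} L) : IsSchwartz.{v, w} L := by
  intro F _ _ _ T
  obtain ⟨Q, h, hc, hQ⟩ := exists_lifting F
  have hf : Continuous fun x => T (ι x) := T.continuous.comp hι.1.continuous
  obtain ⟨H, hH, -⟩ := hι.2 (L1 F) (fun x => h (T (ι x))) (hc.comp hf)
  have hT : T = Q.comp H :=
    (hι.2 F (fun x => T (ι x)) hf).unique (fun _ => rfl) (fun x => by simp [hH, hQ])
  rw [hT]
  exact (isCompactOperator_of_isMultiReflexive hL H).clm_comp Q

end Pool.Agent.MP_c73427_an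

end
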